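import Mathlib

set_option autoImplicit false

/-!
# Local subrings of fields of Kronecker dimension at most one
-/

namespace Pool.Agent.NIPFields.LU

open Polynomial

universe u

/-- `M` is the maximal ideal of the local subring `R` of a field, and it is not zero. -/
structure LP {E : Type u} [Field E] (R M : Set E) : Prop where
  one : (1 : E) ∈ R
  one' : (1 : E) ∉ M
  sub : ∀ x ∈ M, x ∈ R
  add : ∀ x ∈ R, ∀ y ∈ R, x + y ∈ R
  neg : ∀ x ∈ R, -x ∈ R
  mul : ∀ x ∈ R, ∀ y ∈ R, x * y ∈ R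
  addM : ∀ x ∈ M, ∀ y ∈ M, x + y ∈ M
  mulM : ∀ x ∈ R, ∀ y ∈ M, x * y ∈ M
  inv : ∀ x ∈ R, x ∉ M → x⁻¹ ∈ R
  ne : ∃ j ∈ M, j ≠ 0

section

variable {E : Type u} [Field E] {R M : Set E}

/-- the subring -/
def LP.ring (h : LP R M) : Subring E where
  carrier := R
  one_mem' := h.one
  mul_mem' := fun ha hb => h.mul _ ha _ hb
  add_mem' := fun ha hb => h.add _ ha _ hb
  zero_mem' := by
    have := h.add _ h.one _ (h.neg _ h.one)
    rwa [add_neg_cancel] at this
  neg_mem' := fun ha => h.neg _ ha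

theorem LP.mem_ring (h : LP R M) {x : E} : x ∈ h.ring ↔ x ∈ R := Iff.rfl

/-- the maximal ideal -/
def LP.ideal (h : LP R M) : Ideal h.ring where
  carrier := {x | (x : E) ∈ M}
  add_mem' := fun ha hb => h.addM _ ha _ hb
  zero_mem' := by
    obtain ⟨j, hj, _⟩ := h.ne
    have := h.mulM _ h.ring.zero_mem _ hj
    rwa [zero_mul] at this
  smul_mem' := fun c _ hx => h.mulM _ c.2 _ hx

theorem LP.mem_ideal (h : LP R M) {x : h.ring} : x ∈ h.ideal ↔ (x : E) ∈ M := Iff.rfl

theorem LP.isMaximal (h : LP R M) : h.ideal.IsMaximal := by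
  rw [Ideal.isMaximal_iff]
  refine ⟨h.one', fun J x _ hxM hxJ => ?_⟩
  have hx : (x : E)⁻¹ ∈ h.ring := h.inv _ x.2 hxM
  have hx0 : (x : E) ≠ 0 := by
    intro h0
    apply hxM
    have : x = 0 := Subtype.ext h0
    rw [this]
    exact h.ideal.zero_mem
  have h1 : (1 : h.ring) = ⟨_, hx⟩ * x := Subtype.ext (inv_mul_cancel₀ hx0).symm
  rw [h1]
  exact J.mul_mem_left _ hxJ

/-- The residue field is algebraic over a finite prime field. -/
def AlgRes (F : Type u) [Field F] : Prop :=
  ∃ (q : ℕ) (_ : Fact q.Prime) (_ : CharP F q),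
    letI := ZMod.algebra F q
    ∀ z : F, IsAlgebraic (ZMod q) z

/-- The residue field. -/
@[reducible] noncomputable def LP.field (h : LP R M) : Field (h.ring ⧸ h.ideal) :=
  letI := h.isMaximal
  Ideal.Quotient.field h.ideal

/-- relation with integer coefficients and small constant coefficient -/
theorem LP.const_mem {A : Type*} [CommRing A] [Algebra A E] (h : LP R M)
    (hA : ∀ a : A, algebraMap A E a ∈ R) {j : E} (hj : j ∈ M) {f : A[X]} (hf : aeval j f = 0) :
    algebraMap A E (f.coeff 0) ∈ M := by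
  have h1 : aeval j f = aeval j f.divX * j + algebraMap A E (f.coeff 0) := by
    conv_lhs => rw [← divX_mul_X_add f]
    simp
  have h2 : aeval j f.divX ∈ R := by
    rw [aeval_eq_sum_range]
    refine h.ring.sum_mem fun i _ => ?_
    rw [Algebra.smul_def]
    exact h.mul _ (hA _) _ (h.ring.pow_mem (h.sub _ hj) i)
  have h3 : algebraMap A E (f.coeff 0) = (-aeval j f.divX) * j := by
    rw [hf] at h1
    linear_combination -h1
  rw [h3]
  exact h.mulM _ (h.neg _ h2) _ hj

/-- Fields algebraic over the rational numbers. -/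
theorem LP.algRes_of_int [CharZero E] (hE : ∀ x : E, IsAlgebraic ℤ x) (h : LP R M) :
    @AlgRes (h.ring ⧸ h.ideal) h.field := by
  let _ := h.field
  obtain ⟨j, hj, hj0⟩ := h.ne
  have hZ : ∀ a : ℤ, algebraMap ℤ E a ∈ R := fun a => intCast_mem h.ring a
  obtain ⟨f, hf0, hf⟩ := (hE j).exists_nonzero_coeff_and_aeval_eq_zero
    (mem_nonZeroDivisors_of_ne_zero hj0)
  have hN := h.const_mem hZ hj hf
  obtain ⟨q, hq⟩ := CharP.exists (h.ring ⧸ h.ideal)
  have hq0 : q ≠ 0 := by
    rintro rfl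
    have hc : CharZero (h.ring ⧸ h.ideal) := CharP.charP_to_charZero _
    apply hf0
    have h1 : ((f.coeff 0 : ℤ) : h.ring ⧸ h.ideal) = 0 := by
      have h2 : ((f.coeff 0 : ℤ) : h.ring ⧸ h.ideal) =
          Ideal.Quotient.mk h.ideal ((f.coeff 0 : ℤ) : h.ring) := (map_intCast _ _).symm
      rw [h2, Ideal.Quotient.eq_zero_iff_mem, h.mem_ideal]
      simpa using hN
    exact_mod_cast h1
  have hqp : q.Prime := (CharP.char_is_prime_or_zero (h.ring ⧸ h.ideal) q).resolve_right hq0
  refine ⟨q, ⟨hqp⟩, hq, ?_⟩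
  letI := ZMod.algebra (h.ring ⧸ h.ideal) q
  intro z
  obtain ⟨z, rfl⟩ := Ideal.Quotient.mk_surjective z
  obtain ⟨g, hg0, hg⟩ := hE (z : E)
  have hg1 : aeval (z : E) g.primPart = 0 := by
    rcases mul_eq_zero.1 (show algebraMap ℤ E g.content * aeval (z : E) g.primPart = 0 by
      rw [← hg]
      conv_rhs => rw [g.eq_C_content_mul_primPart]
      simp) with h1 | h1
    · exfalso
      apply hg0
      rw [← content_eq_zero_iff]
      simpa using h1
    · exact h1
  refine ⟨g.primPart.map (Int.castRingHom (ZMod q)), ?_, ?_⟩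
  · intro h0
    have h1 : C (q : ℤ) ∣ g.primPart := by
      rw [C_dvd_iff_dvd_coeff]
      intro i
      have h2 := congrArg (fun r => coeff r i) h0
      simp only [coeff_map, coeff_zero] at h2
      exact (ZMod.intCast_zmod_eq_zero_iff_dvd _ q).1 (by simpa using h2)
    have h2 := (isPrimitive_iff_isUnit_of_C_dvd.1 g.isPrimitive_primPart) _ h1
    rw [Int.isUnit_iff] at h2
    have := hqp.one_lt
    omega
  · have h1 : aeval z g.primPart = 0 := by
      apply Subtype.ext
      rw [Subring.coe_zero, ← hg1]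
      have := (aeval_algebraMap_apply E z g.primPart)
      exact this.symm
    have h2 := congrArg (Ideal.Quotient.mk h.ideal) h1
    rw [map_zero] at h2
    rw [aeval_def, eval₂_map, ← h2, aeval_def, hom_eval₂]
    congr 1
    exact RingHom.ext_int _ _

/-- Fields of transcendence degree at most one over a finite field. -/
theorem LP.algRes_of_trdeg {p : ℕ} [hp : Fact p.Prime] [CharP E p]
    (hE : letI := ZMod.algebra E p; Algebra.trdeg (ZMod p) E ≤ 1) (h : LP R M) :
    @AlgRes (h.ring ⧸ h.ideal) h.field := by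
  let _ := h.field
  let _ := ZMod.algebra E p
  have hE : Algebra.trdeg (ZMod p) E ≤ 1 := hE
  obtain ⟨j, hj, hj0⟩ := h.ne
  have hch : CharP (h.ring ⧸ h.ideal) p := by
    obtain ⟨q, hq⟩ := CharP.exists (h.ring ⧸ h.ideal)
    have h1 : ((p : ℕ) : h.ring ⧸ h.ideal) = 0 := by
      have h2 : ((p : ℕ) : h.ring ⧸ h.ideal) =
          Ideal.Quotient.mk h.ideal ((p : ℕ) : h.ring) := (map_natCast _ _).symm
      rw [h2, Ideal.Quotient.eq_zero_iff_mem]
      have h3 : ((p : ℕ) : h.ring) = 0 := by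
        apply Subtype.ext
        push_cast
        exact CharP.cast_eq_zero E p
      rw [h3]
      exact h.ideal.zero_mem
    have h2 : q ∣ p := (CharP.cast_eq_zero_iff _ q p).1 h1
    rcases (Nat.dvd_prime hp.out).1 h2 with h3 | h3
    · exact absurd h3 (CharP.char_ne_one (h.ring ⧸ h.ideal) q)
    · exact h3 ▸ hq
  refine ⟨p, hp, hch, ?_⟩
  let _ := ZMod.algebra (h.ring ⧸ h.ideal) p
  have hring : ∀ a : ZMod p, algebraMap (ZMod p) E a ∈ h.ring := by
    intro a
    obtain ⟨n, rfl⟩ := ZMod.natCast_zmod_surjective a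
    rw [map_natCast]
    exact natCast_mem h.ring n
  -- polynomials in `z`
  have key : ∀ (z : h.ring) (g : (ZMod p)[X]), aeval (z : E) g ∈ M →
      aeval (Ideal.Quotient.mk h.ideal z) g = 0 := by
    intro z g hg
    let ψ : ZMod p →+* h.ring := (algebraMap (ZMod p) E).codRestrict h.ring hring
    have h1 : ((g.eval₂ ψ z : h.ring) : E) = aeval (z : E) g := by
      have := hom_eval₂ g ψ h.ring.subtype z
      rw [aeval_def]
      exact this
    have h2 : g.eval₂ ψ z ∈ h.ideal := by rw [h.mem_ideal, h1]; exact hg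
    rw [← Ideal.Quotient.eq_zero_iff_mem] at h2
    rw [← h2, hom_eval₂, aeval_def]
    congr 1
    exact RingHom.ext_zmod _ _
  intro z
  obtain ⟨z, rfl⟩ := Ideal.Quotient.mk_surjective z
  by_cases hz : IsAlgebraic (ZMod p) (z : E)
  · obtain ⟨g, hg0, hg⟩ := hz
    exact ⟨g, hg0, key z g (by rw [hg]; exact h.ideal.zero_mem)⟩
  · have hz' : Transcendental (ZMod p) (z : E) := hz
    have hind : AlgebraicIndependent (ZMod p) (fun _ : PUnit.{u + 1} => (z : E)) :=
      algebraicIndependent_unique_type_iff.2 hz'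
    have htb := hind.isTranscendenceBasis_of_trdeg_le_of_finite (by simpa using hE)
    have halg := htb.isAlgebraic
    obtain ⟨f, hf0, hf⟩ := (halg.isAlgebraic j).exists_nonzero_coeff_and_aeval_eq_zero
      (mem_nonZeroDivisors_of_ne_zero hj0)
    have hsub : ∀ a : Algebra.adjoin (ZMod p) (Set.range fun _ : PUnit.{u + 1} => (z : E)),
        algebraMap _ E a ∈ R ∧ ∃ g : (ZMod p)[X], aeval (z : E) g = a := by
      rintro ⟨a, ha⟩
      have ha' : a ∈ Algebra.adjoin (ZMod p) {(z : E)} := by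
        rwa [Set.range_const] at ha
      rw [Algebra.adjoin_singleton_eq_range_aeval] at ha'
      obtain ⟨g, hg⟩ := ha'
      refine ⟨?_, g, hg⟩
      change a ∈ h.ring
      rw [← hg]
      change aeval (z : E) g ∈ h.ring
      rw [aeval_eq_sum_range]
      refine h.ring.sum_mem fun i _ => ?_
      rw [Algebra.smul_def]
      exact h.ring.mul_mem (hring _) (h.ring.pow_mem z.2 i)
    have h1 := h.const_mem (fun a => (hsub a).1) hj hf
    obtain ⟨g, hg⟩ := (hsub (f.coeff 0)).2
    refine ⟨g, ?_, key z g (by rw [hg]; exact h1)⟩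
    rintro rfl
    apply hf0
    apply Subtype.ext
    rw [← hg, map_zero]
    rfl

end

/-- There are at most `ℓ` classes modulo `ℓ`-th powers. -/
theorem AlgRes.classes {F : Type u} [Field F] (hF : AlgRes F) {ℓ : ℕ} (hℓ : 0 < ℓ)
    (x : Fin (ℓ + 1) → F) (hx : ∀ i, x i ≠ 0) :
    ∃ i j, i ≠ j ∧ ∃ β : F, β ≠ 0 ∧ x i = β ^ ℓ * x j := by
  obtain ⟨q, hq, hch, halg⟩ := hF
  let _ := ZMod.algebra F q
  let S := IntermediateField.adjoin (ZMod q) (Set.range x)
  have hfd : FiniteDimensional (ZMod q) S :=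
    IntermediateField.finiteDimensional_adjoin fun y _ => (halg y).isIntegral
  have hfin : Finite S := Module.finite_of_finite (ZMod q)
  have hxS : ∀ i, x i ∈ S := fun i => IntermediateField.subset_adjoin _ _ ⟨i, rfl⟩
  let u : Fin (ℓ + 1) → Sˣ := fun i => Units.mk0 ⟨x i, hxS i⟩ fun h => hx i (by
    exact congrArg Subtype.val h)
  obtain ⟨g, hg⟩ := IsCyclic.exists_generator (α := Sˣ)
  choose n hn using fun i => Subgroup.mem_zpowers_iff.1 (hg (u i))
  have hℓ' : NeZero ℓ := ⟨hℓ.ne'⟩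
  obtain ⟨i, j, hij, hnij⟩ : ∃ i j, i ≠ j ∧ (n i : ZMod ℓ) = n j := by
    refine Fintype.exists_ne_map_eq_of_card_lt (fun i => (n i : ZMod ℓ)) ?_
    rw [ZMod.card, Fintype.card_fin]
    exact Nat.lt_succ_self ℓ
  rw [eq_comm, ZMod.intCast_eq_intCast_iff_dvd_sub] at hnij
  obtain ⟨m, hm⟩ := hnij
  refine ⟨i, j, hij, (((g ^ m : Sˣ) : S) : F), ?_, ?_⟩
  · intro h0
    exact (g ^ m).ne_zero (Subtype.ext h0)
  · have h1 : u i = (g ^ m) ^ ℓ * u j := by
      rw [← hn i, ← hn j, ← zpow_natCast, ← zpow_mul, ← zpow_add]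
      congr 1
      linear_combination hm
    have h2 := congrArg (fun w : Sˣ => ((w : S) : F)) h1
    simpa [u] using h2

end Pool.Agent.NIPFields.LU
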