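import Mathlib
import Pool.Agent.NIPFields.FI.Transfer
import Pool.Agent.NIPFields.LZ.Compat
import Pool.Agent.NIPFields.LU.LocPair

set_option autoImplicit false

/-!
# Transfer of local subrings from an ultrapower
-/

namespace Pool.Agent.NIPFields.LU

open FirstOrder FirstOrder.Language FirstOrder.Ring Set Filter IsLocalRing
open Pool.Agent.NIPFields.FI Pool.Agent.NIPFields.LG

universe u

section

variable {I : Type u} {U : Ultrafilter I} {E : Type u} [Field E]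

/-- Definable sets of the ultrapower are internal. -/
theorem exists_internal [CompatibleRing E] {S : Set (Germ (U : Filter I) E)}
    (hdef : @Set.Definable₁ (Germ (U : Filter I) E) univ Language.ring
      (germCompat U E).toStructure S) :
    ∃ T : I → Set E, ∀ g : I → E, (↑g : Germ (U : Filter I) E) ∈ S ↔
      ∀ᶠ t in (U : Filter I), g t ∈ T t := by
  obtain ⟨p, ψ, c, hc⟩ := @exists_formula_of_definable _ _ (germCompat U E) _ hdef
  obtain ⟨f, hf⟩ := exists_rep c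
  subst hf
  refine ⟨fun t => {x | ψ.Realize (Sum.elim (fun _ => x) (fun i => f i t))}, fun g => ?_⟩
  have h1 := hc (↑g : Germ (U : Filter I) E)
  have h2 := germ_realize (U := U) (E := E) ψ (Sum.elim (fun _ : Fin 1 => g) f)
  have h3 : (fun x => (↑((Sum.elim (fun _ : Fin 1 => g) f) x) : Germ (U : Filter I) E)) =
      Sum.elim (fun _ : Fin 1 => (↑g : Germ (U : Filter I) E))
        (fun i => (↑(f i) : Germ (U : Filter I) E)) := by
    funext x
    rcases x with x | x <;> rfl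
  rw [h3] at h2
  refine h1.trans (h2.trans (eventually_congr (Eventually.of_forall fun t => ?_)))
  have h4 : (fun x => (Sum.elim (fun _ : Fin 1 => g) f) x t) =
      Sum.elim (fun _ : Fin 1 => g t) (fun i => f i t) := by
    funext x
    rcases x with x | x <;> rfl
  rw [h4]
  exact Iff.rfl

/-- one universal quantifier -/
theorem ev_imp {P Q : I → E → Prop}
    (h : ∀ g : I → E, (∀ᶠ t in (U : Filter I), P t (g t)) →
      ∀ᶠ t in (U : Filter I), Q t (g t)) :
    ∀ᶠ t in (U : Filter I), ∀ x, P t x → Q t x := by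
  refine eventually_forall_of fun g => ?_
  by_cases e : ∀ᶠ t in (U : Filter I), P t (g t)
  · filter_upwards [h g e] with t ht _
    exact ht
  · rw [← Ultrafilter.eventually_not] at e
    filter_upwards [e] with t ht h
    exact absurd h ht

/-- two universal quantifiers -/
theorem ev_imp2 {P P' : I → E → Prop} {Q : I → E → E → Prop}
    (h : ∀ g g' : I → E, (∀ᶠ t in (U : Filter I), P t (g t)) →
      (∀ᶠ t in (U : Filter I), P' t (g' t)) → ∀ᶠ t in (U : Filter I), Q t (g t) (g' t)) :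
    ∀ᶠ t in (U : Filter I), ∀ x, P t x → ∀ y, P' t y → Q t x y := by
  refine ev_imp (Q := fun t x => ∀ y, P' t y → Q t x y) fun g hg => ?_
  exact ev_imp (P := P') (Q := fun t y => Q t (g t) y) fun g' hg' => h g g' hg hg'

/-- Transfer of the properties of a local ring. -/
theorem lp_transfer {S N : I → Set E} {R M : Set (Germ (U : Filter I) E)}
    (hR : ∀ g : I → E, (↑g : Germ (U : Filter I) E) ∈ R ↔ ∀ᶠ t in (U : Filter I), g t ∈ S t)
    (hM : ∀ g : I → E, (↑g : Germ (U : Filter I) E) ∈ M ↔ ∀ᶠ t in (U : Filter I), g t ∈ N t)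
    (h : LP R M) : ∀ᶠ t in (U : Filter I), LP (S t) (N t) := by
  have h1 : ∀ᶠ t in (U : Filter I), (1 : E) ∈ S t := (hR 1).1 (by
    rw [Germ.coe_one]; exact h.one)
  have h2 : ∀ᶠ t in (U : Filter I), (1 : E) ∉ N t := by
    rw [Ultrafilter.eventually_not]
    intro h'
    apply h.one'
    rw [← Germ.coe_one]
    exact (hM 1).2 h'
  have h3 : ∀ᶠ t in (U : Filter I), ∀ x, x ∈ N t → x ∈ S t :=
    ev_imp (P := fun t x => x ∈ N t) (Q := fun t x => x ∈ S t) fun g hg =>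
      (hR g).1 (h.sub _ ((hM g).2 hg))
  have h4 : ∀ᶠ t in (U : Filter I), ∀ x, x ∈ S t → ∀ y, y ∈ S t → x + y ∈ S t :=
    ev_imp2 (P := fun t x => x ∈ S t) (P' := fun t x => x ∈ S t)
      (Q := fun t x y => x + y ∈ S t) fun g g' hg hg' => (hR (g + g')).1 (by
        rw [Germ.coe_add]; exact h.add _ ((hR g).2 hg) _ ((hR g').2 hg'))
  have h5 : ∀ᶠ t in (U : Filter I), ∀ x, x ∈ S t → -x ∈ S t :=
    ev_imp (P := fun t x => x ∈ S t) (Q := fun t x => -x ∈ S t) fun g hg =>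
      (hR (-g)).1 (by rw [Germ.coe_neg]; exact h.neg _ ((hR g).2 hg))
  have h6 : ∀ᶠ t in (U : Filter I), ∀ x, x ∈ S t → ∀ y, y ∈ S t → x * y ∈ S t :=
    ev_imp2 (P := fun t x => x ∈ S t) (P' := fun t x => x ∈ S t)
      (Q := fun t x y => x * y ∈ S t) fun g g' hg hg' => (hR (g * g')).1 (by
        rw [Germ.coe_mul]; exact h.mul _ ((hR g).2 hg) _ ((hR g').2 hg'))
  have h7 : ∀ᶠ t in (U : Filter I), ∀ x, x ∈ N t → ∀ y, y ∈ N t → x + y ∈ N t :=
    ev_imp2 (P := fun t x => x ∈ N t) (P' := fun t x => x ∈ N t)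
      (Q := fun t x y => x + y ∈ N t) fun g g' hg hg' => (hM (g + g')).1 (by
        rw [Germ.coe_add]; exact h.addM _ ((hM g).2 hg) _ ((hM g').2 hg'))
  have h8 : ∀ᶠ t in (U : Filter I), ∀ x, x ∈ S t → ∀ y, y ∈ N t → x * y ∈ N t :=
    ev_imp2 (P := fun t x => x ∈ S t) (P' := fun t x => x ∈ N t)
      (Q := fun t x y => x * y ∈ N t) fun g g' hg hg' => (hM (g * g')).1 (by
        rw [Germ.coe_mul]; exact h.mulM _ ((hR g).2 hg) _ ((hM g').2 hg'))
  have h9 : ∀ᶠ t in (U : Filter I), ∀ x, (x ∈ S t ∧ x ∉ N t) → x⁻¹ ∈ S t :=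
    ev_imp (P := fun t x => x ∈ S t ∧ x ∉ N t) (Q := fun t x => x⁻¹ ∈ S t) fun g hg =>
      (hR g⁻¹).1 (by
        rw [Germ.coe_inv]
        refine h.inv _ ((hR g).2 (hg.mono fun t ht => ht.1)) fun h' => ?_
        have h'' := (hM g).1 h'
        obtain ⟨t, ht1, ht2⟩ := (hg.and h'').exists
        exact ht1.2 ht2)
  obtain ⟨j, hj, hj0⟩ := h.ne
  induction j using Germ.inductionOn with | _ f
  have h10 := (hM f).1 hj
  have h11 : ∀ᶠ t in (U : Filter I), f t ≠ 0 := by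
    rw [Ultrafilter.eventually_not]
    intro h'
    apply hj0
    rw [← Germ.coe_zero, Germ.coe_eq]
    exact h'
  filter_upwards [h1, h2, h3, h4, h5, h6, h7, h8, h9, h10, h11] with t e1 e2 e3 e4 e5 e6 e7 e8 e9
    e10 e11
  exact ⟨e1, e2, e3, e4, e5, e6, e7, e8, fun x hx hx' => e9 x ⟨hx, hx'⟩, ⟨f t, e10, e11⟩⟩

/-- Transfer of the number of classes. -/
theorem classes_transfer {S N : I → Set E} {R M : Set (Germ (U : Filter I) E)}
    (hR : ∀ g : I → E, (↑g : Germ (U : Filter I) E) ∈ R ↔ ∀ᶠ t in (U : Filter I), g t ∈ S t)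
    (hM : ∀ g : I → E, (↑g : Germ (U : Filter I) E) ∈ M ↔ ∀ᶠ t in (U : Filter I), g t ∈ N t)
    (h : LP R M) {ℓ : ℕ} (hℓ : 0 < ℓ)
    (hE : ∀ (R M : Set E) (h : LP R M), @AlgRes (h.ring ⧸ h.ideal) h.field)
    (x : Fin (ℓ + 1) → Germ (U : Filter I) E) (hx : ∀ i, x i ∈ R ∧ x i ∉ M) :
    ∃ i j, i ≠ j ∧ ∃ β ∈ R, β ∉ M ∧ x i - β ^ ℓ * x j ∈ M := by
  classical
  choose f hf using fun i => Quotient.exists_rep (x i)
  have hf' : ∀ i, x i = ↑(f i) := fun i => (hf i).symm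
  have h1 : ∀ i, ∀ᶠ t in (U : Filter I), f i t ∈ S t := fun i => (hR _).1 (by
    rw [← hf']; exact (hx i).1)
  have h2 : ∀ i, ∀ᶠ t in (U : Filter I), f i t ∉ N t := by
    intro i
    rw [Ultrafilter.eventually_not]
    intro h'
    apply (hx i).2
    rw [hf']
    exact (hM _).2 h'
  have h3 := lp_transfer hR hM h
  have h4 : ∀ᶠ t in (U : Filter I), ∃ ij : Fin (ℓ + 1) × Fin (ℓ + 1), ij.1 ≠ ij.2 ∧
      ∃ β ∈ S t, β ∉ N t ∧ f ij.1 t - β ^ ℓ * f ij.2 t ∈ N t := by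
    filter_upwards [h3, (eventually_all (l := (U : Filter I))).2 h1,
      (eventually_all (l := (U : Filter I))).2 h2] with t e1 e2 e3
    let _ := e1.field
    obtain ⟨i, j, hij, β, hβ, hxij⟩ := (hE _ _ e1).classes hℓ
      (fun i => Ideal.Quotient.mk e1.ideal ⟨f i t, e2 i⟩) (fun i h0 => by
        rw [Ideal.Quotient.eq_zero_iff_mem] at h0
        exact e3 i h0)
    obtain ⟨β, rfl⟩ := Ideal.Quotient.mk_surjective β
    refine ⟨(i, j), hij, β, β.2, ?_, ?_⟩
    · intro h0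
      exact hβ (Ideal.Quotient.eq_zero_iff_mem.2 h0)
    · rw [← sub_eq_zero, ← map_pow, ← map_mul, ← map_sub, Ideal.Quotient.eq_zero_iff_mem] at hxij
      exact hxij
  have h5 : ∃ ij : Fin (ℓ + 1) × Fin (ℓ + 1), ∀ᶠ t in (U : Filter I), ij.1 ≠ ij.2 ∧
      ∃ β ∈ S t, β ∉ N t ∧ f ij.1 t - β ^ ℓ * f ij.2 t ∈ N t := by
    by_contra hcon
    have h6 : ∀ ij : Fin (ℓ + 1) × Fin (ℓ + 1), ∀ᶠ t in (U : Filter I), ¬ (ij.1 ≠ ij.2 ∧
      ∃ β ∈ S t, β ∉ N t ∧ f ij.1 t - β ^ ℓ * f ij.2 t ∈ N t) := by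
      intro ij
      rw [Ultrafilter.eventually_not]
      intro h'
      exact hcon ⟨ij, h'⟩
    obtain ⟨t, ⟨ij, ht1⟩, ht2⟩ := (h4.and ((eventually_all (l := (U : Filter I))).2 h6)).exists
    exact ht2 ij ht1
  obtain ⟨⟨i, j⟩, h6⟩ := h5
  obtain ⟨t₀, hij, _⟩ := h6.exists
  have h7 : ∀ t, ∃ β : E, (∃ β ∈ S t, β ∉ N t ∧ f i t - β ^ ℓ * f j t ∈ N t) →
      β ∈ S t ∧ β ∉ N t ∧ f i t - β ^ ℓ * f j t ∈ N t := by
    intro t
    by_cases h8 : ∃ β ∈ S t, β ∉ N t ∧ f i t - β ^ ℓ * f j t ∈ N t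
    · obtain ⟨β, hβ⟩ := h8
      exact ⟨β, fun _ => hβ⟩
    · exact ⟨0, fun h9 => absurd h9 h8⟩
  choose β hβ using h7
  refine ⟨i, j, hij, ↑β, ?_, ?_, ?_⟩
  · rw [hR]
    filter_upwards [h6] with t ht
    exact (hβ t ht.2).1
  · intro h'
    have h8 := (hM β).1 h'
    obtain ⟨t, ht1, ht2⟩ := (h6.and h8).exists
    exact (hβ t ht1.2).2.1 ht2
  · rw [hf', hf', ← Germ.coe_pow, ← Germ.coe_mul, ← Germ.coe_sub, hM]
    filter_upwards [h6] with t ht
    exact (hβ t ht.2).2.2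

end

/-! ### The local ring of Lemma J -/

section

variable {K : Type u} [Field K] {k : Type u} [Field k] [Algebra K k] {ℓ : ℕ} {D : LD K k ℓ}
  {G : Finset k} {P : Ideal (D.E G)} {F' : Finset K} {e : D.E G}

/-- the maximal ideal of the local ring, as a subset of the field -/
def maxS (E : Subring k) (P : Ideal E) [P.IsPrime] : Set k :=
  {x | ∃ h : x ∈ locS E P, residue (locS E P) ⟨x, h⟩ = 0}

theorem lp_of_J (J : JData D G P F' e) [P.IsPrime] :
    LP {x | x ∈ locS (D.E G) P} (maxS (D.E G) P) where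
  one := (locS (D.E G) P).one_mem
  one' := by
    rintro ⟨h, h0⟩
    have h1 : (⟨1, h⟩ : locS (D.E G) P) = 1 := rfl
    rw [h1, map_one] at h0
    exact one_ne_zero h0
  sub := fun x hx => hx.1
  add := fun x hx y hy => (locS (D.E G) P).add_mem hx hy
  neg := fun x hx => (locS (D.E G) P).neg_mem hx
  mul := fun x hx y hy => (locS (D.E G) P).mul_mem hx hy
  addM := by
    rintro x ⟨hx, hx'⟩ y ⟨hy, hy'⟩
    refine ⟨(locS (D.E G) P).add_mem hx hy, ?_⟩
    have h1 : (⟨x + y, (locS (D.E G) P).add_mem hx hy⟩ : locS (D.E G) P) = ⟨x, hx⟩ + ⟨y, hy⟩ := rfl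
    rw [h1, map_add, hx', hy', add_zero]
  mulM := by
    rintro x hx y ⟨hy, hy'⟩
    refine ⟨(locS (D.E G) P).mul_mem hx hy, ?_⟩
    have h1 : (⟨x * y, (locS (D.E G) P).mul_mem hx hy⟩ : locS (D.E G) P) = ⟨x, hx⟩ * ⟨y, hy⟩ := rfl
    rw [h1, map_mul, hy', mul_zero]
  inv := by
    intro x hx hxM
    have hu : IsUnit (⟨x, hx⟩ : locS (D.E G) P) := by
      by_contra hu
      apply hxM
      refine ⟨hx, ?_⟩
      rw [residue_eq_zero_iff, mem_maximalIdeal]
      exact hu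
    obtain ⟨y, hy⟩ := hu.exists_right_inv
    have hy' : x * (y : k) = 1 := congrArg Subtype.val hy
    have h1 : x⁻¹ = y := inv_eq_of_mul_eq_one_right hy'
    change x⁻¹ ∈ locS (D.E G) P
    rw [h1]
    exact y.2
  ne := by
    classical
    obtain ⟨ε, hε, h⟩ := D.small (G.image fun g => g⁻¹)
    have h1 : ε ∈ D.I G := by
      intro g hg
      have := h g⁻¹ (Finset.mem_image_of_mem _ hg)
      rwa [inv_mul_eq_div] at this
    have hE : ε ∈ D.E G := D.I_le_E J.fam.one h1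
    have h2 : (⟨ε, hE⟩ : D.E G) ∈ P := J.I_mem h1
    exact ⟨ε, ⟨le_locS hE, locS_residue_eq_zero.2 h2⟩, hε⟩

end

attribute [local instance] germAlg

/-- Lemma J cannot be applied to fields of Kronecker dimension at most one. -/
theorem noJ_of_algRes {K : Type u} [Field K] [Infinite K] [CompatibleRing K] {ℓ : ℕ} (hℓ : ℓ ≠ 0)
    (D : LD K (Germ (UF K : Filter (Finset K)) K) ℓ)
    (hE : ∀ (R M : Set K) (h : LP R M), @AlgRes (h.ring ⧸ h.ideal) h.field) : NoJ D := by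
  classical
  intro G P F' e J
  have _ : P.IsPrime := J.max.isPrime
  let _ : CompatibleRing (Germ (UF K : Filter (Finset K)) K) := germCompat (UF K) K
  obtain ⟨S, hS⟩ := exists_internal (U := UF K) (E := K) J.def_loc
  obtain ⟨N, hN⟩ := exists_internal (U := UF K) (E := K) J.def_max
  have hLP := lp_of_J J
  have hcl := classes_transfer (R := {x | x ∈ locS (D.E G) P}) (M := maxS (D.E G) P) hS hN hLP
    (Nat.pos_of_ne_zero hℓ) hE
  let F := ResidueField (locS (D.E G) P)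
  have hnz : ∀ x : locS (D.E G) P, residue (locS (D.E G) P) x ≠ 0 →
      (x : Germ (UF K : Filter (Finset K)) K) ∉ maxS (D.E G) P := by
    rintro x hx ⟨h, h0⟩
    exact hx h0
  -- the index is finite
  have hidx : ∀ x : Fin (ℓ + 1) → Fˣ, ∃ i j, i ≠ j ∧
      (x j)⁻¹ * x i ∈ (powMonoidHom ℓ : Fˣ →* Fˣ).range := by
    intro x
    choose y hy using fun i => residue_surjective (R := locS (D.E G) P) (x i : F)
    obtain ⟨i, j, hij, β, hβ, hβM, hxy⟩ := hcl (fun i => (y i : _)) fun i => ⟨(y i).2, hnz _ (by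
      rw [hy]
      exact (x i).ne_zero)⟩
    refine ⟨i, j, hij, ?_⟩
    have hβ0 : residue (locS (D.E G) P) ⟨β, hβ⟩ ≠ 0 := fun h0 => hβM ⟨hβ, h0⟩
    refine ⟨Units.mk0 _ hβ0, ?_⟩
    apply Units.ext
    obtain ⟨h1, h2⟩ := hxy
    have h3 : (⟨_, h1⟩ : locS (D.E G) P) = y i - ⟨β, hβ⟩ ^ ℓ * y j := rfl
    rw [h3, map_sub, map_mul, map_pow, hy, hy, sub_eq_zero] at h2
    simp only [powMonoidHom_apply, Units.val_pow_eq_pow_val, Units.val_mk0, Units.val_mul,
      Units.val_inv_eq_inv_val]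
    rw [h2]
    have := (x j).ne_zero
    rw [mul_left_comm, inv_mul_cancel₀ this, mul_one]
  have hfin : ((powMonoidHom ℓ : Fˣ →* Fˣ).range).FiniteIndex := by
    by_contra hcon
    have hinf : Infinite (Fˣ ⧸ (powMonoidHom ℓ : Fˣ →* Fˣ).range) := by
      rw [← not_finite_iff_infinite]
      intro hf
      exact hcon Subgroup.finiteIndex_of_finite_quotient
    obtain ⟨T, hT⟩ := Infinite.exists_subset_card_eq (Fˣ ⧸ (powMonoidHom ℓ : Fˣ →* Fˣ).range)
      (ℓ + 1)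
    let f : Fin (ℓ + 1) ≃ T := (Fintype.equivFinOfCardEq (by rw [Fintype.card_coe, hT])).symm
    choose x hx using fun i =>
      Quotient.exists_rep ((f i : T) : Fˣ ⧸ (powMonoidHom ℓ : Fˣ →* Fˣ).range)
    obtain ⟨i, j, hij, h⟩ := hidx x
    apply hij
    apply f.injective
    apply Subtype.ext
    rw [← hx i, ← hx j]
    exact (QuotientGroup.eq.2 h).symm
  have hinfF : Infinite F := by
    let φ : K →+* F := ((residue (locS (D.E G) P)).comp toLocS).comp
      ((algebraMap K (Germ (UF K : Filter (Finset K)) K)).codRestrict (D.E G)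
        (D.algebraMap_mem G))
    exact Infinite.of_injective φ φ.injective
  have hQ : Finite (Qt (powMonoidHom ℓ : Fˣ →* Fˣ).range) := finite_Q
  apply J.not_TL
  intro A
  obtain ⟨δ, hδ, h⟩ := exists_mem_Nb (c := col ((powMonoidHom ℓ : Fˣ →* Fˣ).range)) A
  exact ⟨δ, hδ, fun a ha => col_pow.1 (h a ha)⟩

end Pool.Agent.NIPFields.LU
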