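import Mathlib
import Pool.Agent.NIPFields.LU.Transfer
import Pool.Agent.NIPFields.LZ.Final
import Pool.Agent.NIPFields.LG.FTNb

set_option autoImplicit false

/-!
# Shelah's conjecture for large fields which are algebraic over the rational numbers
-/

namespace Pool.Agent.NIPFields.LU

open FirstOrder FirstOrder.Language FirstOrder.Ring Set IsLocalRing Filter
open Pool.Agent.NIPFields.LC Pool.Agent.NIPFields.LG Pool.Agent.NIPFields.FI
open Pool.Agent.NIPFields.LZ

universe u v

attribute [local instance] germAlg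

/-- A field with `ζ_q` and `i` and a non-`q`-th power has a definable valuation ring. -/
theorem exists_definable_of_noJ {L : Type u} [Field L] [Infinite L] [CompatibleRing L]
    (hL : NIP L) {q : ℕ} (hq : q.Prime) (hqL : (q : L) ≠ 0) {ζ : L} (hζ : IsPrimitiveRoot ζ q)
    (hi : ∃ i : L, i ^ 2 = -1) (hTL : TL L q)
    (hNJ : ∀ D : LD L (Germ (UF L : Filter (Finset L)) L) q, NoJ D)
    (ha : ∃ a : L, ∀ y, a ≠ y ^ q) :
    ∃ O : ValuationSubring L, O ≠ ⊤ ∧ (univ : Set L).Definable₁ Language.ring {x | x ∈ O} := by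
  have D := exists_LD hL hq hTL ha
  obtain ⟨V, hV, -, hVJ⟩ := exists_val_of_noJ hL hq hqL hζ D (hNJ D)
  obtain ⟨i, hi⟩ := hi
  let E := Germ (UF L : Filter (Finset L)) L
  let _ : CompatibleRing E := germCompat (UF L) L
  have hE : NIP E := NIP.germ hL
  obtain ⟨O₁, h₁, hd₁⟩ := exists_definable_of_compat_pow hE hq
    ⟨algebraMap L E ζ, hζ.map_of_injective (algebraMap L E).injective⟩
    ⟨algebraMap L E i, by rw [← map_pow, hi, map_neg, map_one]⟩ (by
      obtain ⟨a, ha0, haP⟩ := D.ne
      refine ⟨algebraMap L E a, fun y hy => haP ⟨y, ?_, hy⟩⟩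
      rintro rfl
      rw [zero_pow hq.ne_zero] at hy
      exact (map_ne_zero _).2 ha0 hy)
    ⟨V, hV, fun m hm => by
      obtain ⟨b, _, hb⟩ := one_add_mem ((hVJ m).1 hm)
      exact ⟨b, hb⟩⟩
  exact exists_definable_of_germ O₁ h₁ hd₁

/-- `TL` is preserved by surjective homomorphisms of fields. -/
theorem TL.map {L κ : Type*} [Field L] [Field κ] {q : ℕ} (h : TL L q) (φ : L →+* κ)
    (hφ : Function.Surjective φ) : TL κ q := by
  classical
  intro A
  obtain ⟨g, hg⟩ := hφ.hasRightInverse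
  obtain ⟨δ, hδ, hA⟩ := h (A.image g)
  refine ⟨φ δ, (map_ne_zero φ).2 hδ, fun a ha => ?_⟩
  obtain ⟨b, hb0, hb⟩ := hA (g a) (Finset.mem_image_of_mem g ha)
  refine ⟨φ b, (map_ne_zero φ).2 hb0, ?_⟩
  rw [← map_pow, ← hb, map_add, map_one, map_mul, hg a]

/-- No incomparable definable valuation rings in residue characteristic zero. -/
theorem no_incomparable {K : Type u} [Field K] [CompatibleRing K] (hK : NIP K) {L : Type u}
    [Field L] [Algebra K L] [FiniteDimensional K L] (O₁ O₂ : ValuationSubring L)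
    (h₁ : ¬ O₁ ≤ O₂) (h₂ : ¬ O₂ ≤ O₁) (hd₁ : LDef₁ (Module.finBasis K L) {x | x ∈ O₁})
    (hd₂ : LDef₁ (Module.finBasis K L) {x | x ∈ O₂})
    (hchar : CharZero (ResidueField (O₁ ⊔ O₂ : ValuationSubring L)))
    (hTL : TL (ResidueField (O₁ ⊔ O₂ : ValuationSubring L)) 2)
    (halg : ∀ x : ResidueField (O₁ ⊔ O₂ : ValuationSubring L), IsAlgebraic ℤ x) : False := by
  classical
  set U : ValuationSubring L := O₁ ⊔ O₂ with hU
  have hdU : LDef₁ (Module.finBasis K L) {x | x ∈ U} := ldef_sup hd₁ hd₂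
  have hu₁ : O₁ ≤ U := le_sup_left
  have hu₂ : O₂ ≤ U := le_sup_right
  have hn₁ : resVal hu₁ ≠ ⊤ := resVal_ne_top hu₁ (fun h => h₂ (hu₂.trans h))
  have hn₂ : resVal hu₂ ≠ ⊤ := resVal_ne_top hu₂ (fun h => h₁ (hu₁.trans h))
  have hsup : resVal hu₁ ⊔ resVal hu₂ = ⊤ := resVal_sup O₁ O₂
  have h20 : ((2 : ℕ) : ResidueField U) ≠ 0 := by
    exact_mod_cast (two_ne_zero : (2 : ResidueField U) ≠ 0)
  have hprim : IsPrimitiveRoot (-1 : ResidueField U) 2 := by
    have hne : (-1 : ResidueField U) ≠ 1 := by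
      intro h
      apply (two_ne_zero : (2 : ResidueField U) ≠ 0)
      linear_combination -h
    have hord : orderOf (-1 : ResidueField U) = 2 := orderOf_eq_prime (by norm_num) hne
    rw [← hord]
    exact IsPrimitiveRoot.orderOf _
  by_cases hsq : ∃ a : ResidueField U, ∀ y, a ≠ y ^ 2
  · let _ : CompatibleRing (ResidueField U) := compatibleRingOfRing (ResidueField U)
    have hNIP : NIP (ResidueField U) := nip_residue hK U hdU
    have D := exists_LD hNIP Nat.prime_two hTL hsq
    obtain ⟨V, hV, hVK, hVJ⟩ := exists_val_of_noJ hNIP Nat.prime_two h20 hprim D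
      (noJ_of_algRes two_ne_zero D fun R M h => h.algRes_of_int halg)
    let A : Bool → ValuationSubring (ResidueField U) := fun b => bif b then resVal hu₁ else resVal hu₂
    refine no_indep_of_val (A := A) ?_ hsup D V hV hVK hVJ ?_
    · rintro (_ | _)
      · exact hn₂
      · exact hn₁
    · rintro (_ | _) F
      · exact i0_vc hK hd₂ hdU hu₂ F
      · exact i0_vc hK hd₁ hdU hu₁ F
  · push Not at hsq
    refine LC.TT hn₁ hn₂ hsup le_rfl h20 hprim ?_ (vc_res hK hd₁ hd₂ hdU hu₁ hu₂ 2 h20)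
    have htop : (powMonoidHom 2 : (ResidueField U)ˣ →* (ResidueField U)ˣ).range = ⊤ := by
      rw [eq_top_iff]
      intro z _
      obtain ⟨y, hy⟩ := hsq (z : ResidueField U)
      have hy0 : y ≠ 0 := by
        rintro rfl
        rw [zero_pow two_ne_zero] at hy
        exact z.ne_zero hy
      refine ⟨Units.mk0 y hy0, Units.ext ?_⟩
      simp only [powMonoidHom_apply, Units.val_pow_eq_pow_val, Units.val_mk0]
      exact hy.symm
    rw [htop]
    infer_instance

/-- Finite extensions of algebraic extensions of the rational numbers are algebraic. -/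
theorem isAlgebraic_of_finite {K L : Type*} [Field K] [Field L] [Algebra K L]
    [FiniteDimensional K L] (hK : ∀ x : K, IsAlgebraic ℤ x) (x : L) : IsAlgebraic ℤ x := by
  have h1 : Algebra.IsAlgebraic ℤ K := ⟨hK⟩
  have h2 : Algebra.IsAlgebraic K L := inferInstance
  have h3 : Algebra.IsAlgebraic ℤ L := Algebra.IsAlgebraic.trans ℤ K L
  exact h3.isAlgebraic x

/-- Shelah's conjecture for large fields which are algebraic over the rational numbers. -/
theorem shelah_of_large_algebraic0 {K : Type u} [Field K] [CompatibleRing K] [CharZero K]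
    (hK : NIP K) (hl : Large K) (halg : ∀ x : K, IsAlgebraic ℤ x) :
    IsSepClosed K ∨ Module.finrank K (AlgebraicClosure K) = 2 ∨
      ∃ O : ValuationSubring K, O ≠ ⊤ ∧ HenselianLocalRing O ∧
        (univ : Set K).Definable₁ Language.ring {x | x ∈ O} := by
  rcases exists_not_power_root (K := K) with h | h | ⟨L, _, _, q, hfd, hi, hq, ⟨ζ, hζ⟩, ha⟩
  · exact Or.inl inferInstance
  · exact Or.inr (Or.inl h)
  right; right
  let _ : CompatibleRing L := compatibleRingOfRing L
  have hchL : CharZero L := charZero_of_injective_algebraMap (algebraMap K L).injective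
  have hL : NIP L := hK.finite (Module.finBasis K L)
  obtain ⟨O', h', hd'⟩ := exists_definable_of_noJ hL hq (Nat.cast_ne_zero.2 hq.ne_zero) hζ hi
    (TLR_of_large hl (L := L) (Nat.cast_ne_zero.2 hq.ne_zero)).tl
    (fun D => noJ_of_algRes hq.ne_zero D fun R M h =>
      h.algRes_of_int (isAlgebraic_of_finite halg)) ha
  obtain ⟨O, hO1, hO2⟩ := LC.exists_definable_restrict (K := K) h' hd'
  refine ⟨O, hO1, ?_, hO2⟩
  by_contra hnh
  obtain ⟨E, _, _, _, -, O₁, O₂, h₁, h₂, hd₁, hd₂⟩ :=
    exists_incomparable_of_not_henselian hO2 hnh 1 one_ne_zero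
  obtain ⟨p, hp⟩ := CharP.exists (ResidueField (O₁ ⊔ O₂ : ValuationSubring E))
  rcases CharP.char_is_prime_or_zero (ResidueField (O₁ ⊔ O₂ : ValuationSubring E)) p with
    hpp | rfl
  · exact no_incomparable_charP hK O₁ O₂ h₁ h₂ hd₁ hd₂ p hpp hp
  · have h0 := CharP.charP_to_charZero (ResidueField (O₁ ⊔ O₂ : ValuationSubring E))
    have hmem : ∀ x : E, x ∈ (O₁ ⊔ O₂ : ValuationSubring E).toSubring := fun x =>
      mem_of_isAlgebraic _ (isAlgebraic_of_finite halg x)
    let φ : E →+* ResidueField (O₁ ⊔ O₂ : ValuationSubring E) :=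
      (residue (O₁ ⊔ O₂ : ValuationSubring E)).comp
        ((RingHom.id E).codRestrict (O₁ ⊔ O₂ : ValuationSubring E).toSubring hmem)
    have hφ : Function.Surjective φ := by
      intro y
      obtain ⟨x, rfl⟩ := residue_surjective y
      exact ⟨x, rfl⟩
    have hTL : TL E 2 := (TLR_of_large hl (L := E) (q := 2) (Nat.cast_ne_zero.2 two_ne_zero)).tl
    refine no_incomparable hK O₁ O₂ h₁ h₂ hd₁ hd₂ h0 (TL.map hTL φ hφ) fun y => ?_
    obtain ⟨x, rfl⟩ := hφ y
    exact (isAlgebraic_of_finite halg x).algHom (RingHom.toIntAlgHom φ)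

end Pool.Agent.NIPFields.LU
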