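import Mathlib
import Pool.Agent.NIPFields.LU.Final
import Pool.Agent.NIPFields.LG.LargeStrong

set_option autoImplicit false

/-!
# Large fields which are strongly dependent or algebraic over a small subfield
-/

namespace Pool.Agent.NIPFields.LU

open FirstOrder FirstOrder.Language FirstOrder.Ring Set IsLocalRing Filter
open Pool.Agent.NIPFields.LC Pool.Agent.NIPFields.LG Pool.Agent.NIPFields.FI

universe u

theorem isAlgebraic_int_of_prime {K : Type*} [Field K] [CharZero K]
    (h : Algebra.IsAlgebraic (Subfield.closure (∅ : Set K)) K) (x : K) : IsAlgebraic ℤ x := by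
  have h0 : ∀ x : Subfield.closure (∅ : Set K), IsAlgebraic ℤ x := by
    intro x
    have h1 : (x : K) ∈ (algebraMap ℚ K).fieldRange := by
      have h2 : Subfield.closure (∅ : Set K) ≤ (algebraMap ℚ K).fieldRange :=
        Subfield.closure_le.2 (empty_subset _)
      exact h2 x.2
    obtain ⟨q, hq⟩ := h1
    have h3 : IsAlgebraic ℤ q := by
      have : Algebra.IsAlgebraic ℤ ℚ := IsLocalization.isAlgebraic ℚ (nonZeroDivisors ℤ)
      exact this.isAlgebraic q
    have h4 : IsAlgebraic ℤ (x : K) := by
      rw [← hq]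
      exact h3.algHom (RingHom.toIntAlgHom (algebraMap ℚ K))
    exact (isAlgebraic_algHom_iff (RingHom.toIntAlgHom (Subfield.closure (∅ : Set K)).subtype)
      Subtype.val_injective).1 h4
  have h1 : Algebra.IsAlgebraic ℤ (Subfield.closure (∅ : Set K)) := ⟨h0⟩
  have h2 : Algebra.IsAlgebraic ℤ K := Algebra.IsAlgebraic.trans ℤ (Subfield.closure (∅ : Set K)) K
  exact h2.isAlgebraic x

end Pool.Agent.NIPFields.LU
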